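import Pool.Agent.T6.H76.DP.Final

/-!
# MP_94ebd3_co: the configuration `-x + y = z`, `x y = t` is not Ramsey partition regular

There is a finite colouring `c` of the natural numbers such that for every infinite set `H` of
positive integers (of one colour or not) and every colour `j`, some pair `h₁ < h₂` in `H` does not
satisfy that both `h₂ - h₁` and `h₁ h₂` have colour `j`. This is the negated form of the question for
the formula `φ₁`. (The colour class of `0` plays no role, since `h₂ - h₁` and `h₁ h₂` are positive.)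
-/

set_option autoImplicit false

namespace Pool.Agent.Results.MP_94ebd3_co.DiffProd

theorem result : ∃ (r : ℕ) (c : ℕ → Fin r), ∀ H : Set ℕ, H.Infinite → (∀ h ∈ H, 0 < h) →
    ∀ j : Fin r, ∃ h₁ ∈ H, ∃ h₂ ∈ H, h₁ < h₂ ∧
      ¬ ∃ z t : ℕ, c z = j ∧ c t = j ∧ z = h₂ - h₁ ∧ h₁ * h₂ = t := by
  by_contra hcon
  push Not at hcon
  refine Pool.Agent.T6.H76.DP.no_ramsey fun k c => ?_
  obtain ⟨H, hinf, hpos, j, hj⟩ := hcon k c
  have hmem : ∀ n, Nat.nth (· ∈ H) n ∈ H := fun n => Nat.nth_mem_of_infinite hinf n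
  have hmono : StrictMono (Nat.nth (· ∈ H)) := Nat.nth_strictMono hinf
  refine ⟨Nat.nth (· ∈ H), j, hmono, hpos _ (hmem 0), fun n m hnm => ?_⟩
  obtain ⟨z, t, h1, h2, h3, h4⟩ := hj _ (hmem n) _ (hmem m) (hmono hnm)
  rw [← h3, h4]
  exact ⟨h1, h2⟩

end Pool.Agent.Results.MP_94ebd3_co.DiffProd
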